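import Pool.Agent.Helper389_End.Pair

set_option autoImplicit false

/-!
Growth of `Hom` between `τ`-rigid modules and rational rays outside the `τ`-tilting fan, in any
rank. Let `A` be a finite dimensional algebra over an arbitrary field `k`.

(1) Local form, for two sequences of `τ`-rigid modules `Vⱼ`, `Wⱼ` whose `g`-vectors have
directions converging to `π`.

(2) Either some nonzero rational vector lies in no cone of the `τ`-tilting fan, or the `τ`-rigid
modules have a colouring with finitely many colours such that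
`dim Hom(V, W) ≥ dim Hom(W, τ V) + c (dim V) (dim W)` for all `V`, `W ≠ 0` of the same colour,
for one constant `c > 0`.

(3) If for every `m` there are nonzero `τ`-rigid modules `V₁, …, Vₘ` with
`dim Hom(Vᵢ, Vⱼ) ≤ dim Hom(Vⱼ, τ Vᵢ)` for all `i < j` (for example `Hom(Vᵢ, Vⱼ) = 0` for all
`i < j`), then some nonzero rational vector lies in no cone.

(4) The same conclusion if for some `K` there are infinitely many indecomposable `τ`-rigid
modules `V` with `dim End(V) ≤ K`.
-/

namespace Pool.Agent.Results.MP_7dd0aa_al.HomGrowth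

open Pool.Agent.Helper391_TT Pool.Agent.Helper389_End Filter Topology

universe u

variable {k A : Type u} [Field k] [Ring A] [Algebra k A] {ι : Type} [Fintype ι]

/-- a nonzero `τ`-rigid module -/
def Rig (V : FM k A) : Prop := IsTauRigid V ∧ Nontrivial V.X

/-- `dim V` -/
noncomputable def dm (V : FM k A) : ℕ := Module.finrank k V.X

/-- `dim Hom(V, W)` -/
noncomputable def hom (V W : FM k A) : ℕ := Module.finrank k (V.X →ₗ[A] W.X)

/-- `dim Hom(W, τ V)` is equal to `d`; here `τ V` is computed from a minimal presentation `S` of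
`V`, and `M` is a module isomorphic to `τ V` -/
def HomTau (W V : FM k A) (d : ℕ) : Prop :=
  ∃ (S : MinPres V) (M : FM k A), Nonempty (M.X ≃ₗ[A] S.tau) ∧ d = hom W M

/-- the directions of the `g`-vectors of the modules `V j` tend to `π` -/
def DirTo (B : ProjBasis k A ι) (V : ℕ → FM k A) (π : ι → ℝ) : Prop :=
  ∃ g : ℕ → ι → ℤ, (∀ j, B.IsGVec (V j) (g j)) ∧
    Tendsto (fun j => (‖(fun i => (g j i : ℝ) : ι → ℝ)‖)⁻¹ • (fun i => (g j i : ℝ) : ι → ℝ))
      atTop (𝓝 π)

/-- some nonzero rational vector lies in no cone of the fan -/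
def RatOutside (B : ProjBasis k A ι) : Prop :=
  ∃ v : ι → ℚ, v ≠ 0 ∧ (fun i => (v i : ℝ)) ∉ B.gFan

/-- some lattice point `z` with `|z - N π| < ε` for some `N ≥ 1`, satisfying every integral
linear equation that `π` satisfies, lies in no cone of the fan -/
def LatOutside (B : ProjBasis k A ι) (π : ι → ℝ) (ε : ℝ) : Prop :=
  ∃ (N : ℕ) (z : ι → ℤ), 1 ≤ N ∧ (∀ i, |(z i : ℝ) - N * π i| < ε) ∧
    (∀ r : ι → ℤ, ∑ i, π i * (r i : ℝ) = 0 → ∑ i, z i * r i = 0) ∧
    (fun i => (z i : ℝ)) ∉ B.gFan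

/-- `dim Hom(W, τ V) + c (dim V) (dim W) ≤ dim Hom(V, W)` -/
def Big (c : ℝ) (V W : FM k A) : Prop :=
  ∀ t, HomTau W V t → t + c * dm V * dm W ≤ hom V W

/-- there are infinitely many isomorphism classes of indecomposable `τ`-rigid modules `V` with
`dim End(V) ≤ K` -/
def ManySmallEnd (k A : Type u) [Field k] [Ring A] [Algebra k A] (K : ℕ) : Prop :=
  ¬ ∃ (n : ℕ) (W : Fin n → FM k A), ∀ V : FM k A, Indec A V.X → IsTauRigid V →
    hom V V ≤ K → ∃ i, Nonempty (V.X ≃ₗ[A] (W i).X)

theorem homTau_iff {W V : FM k A} {d : ℕ} (h : HomTau W V d) :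
    ∃ S : MinPres V, d = Module.finrank k (W.X →ₗ[A] S.tau) := by
  obtain ⟨S, M, ⟨e⟩, rfl⟩ := h
  refine ⟨S, ?_⟩
  refine LinearEquiv.finrank_eq (LinearEquiv.ofBijective
    { toFun := fun φ => e.toLinearMap ∘ₗ φ
      map_add' := fun φ ψ => LinearMap.comp_add _ _ _
      map_smul' := fun c φ => ?_ : (W.X →ₗ[A] M.X) →ₗ[k] (W.X →ₗ[A] S.tau) } ⟨?_, ?_⟩)
  · ext x : 1
    exact LinearMap.map_smul_of_tower e.toLinearMap c (φ x)
  · intro φ ψ h
    ext x : 1
    exact e.injective (LinearMap.congr_fun h x)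
  · intro ψ
    refine ⟨e.symm.toLinearMap ∘ₗ ψ, ?_⟩
    ext x : 1
    exact e.apply_symm_apply (ψ x)

theorem result [Module.Finite k A] (B : ProjBasis k A ι) :
    (∀ (V W : ℕ → FM k A) (π : ι → ℝ), (∀ j, Rig (V j) ∧ Rig (W j)) →
      DirTo B V π → DirTo B W π → (∀ c : ℝ, 0 < c → ∃ᶠ j in atTop, ¬ Big c (V j) (W j)) →
      ∀ ε : ℝ, 0 < ε → LatOutside B π ε) ∧
    (RatOutside B ∨ ∃ (c : ℝ) (m : ℕ) (f : FM k A → Fin m), 0 < c ∧
      ∀ V W, Rig V → Rig W → f V = f W → Big c V W) ∧
    ((∀ m : ℕ, ∃ V : Fin m → FM k A, (∀ i, Rig (V i)) ∧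
      ∀ i j, i < j → ∃ t, HomTau (V j) (V i) t ∧ hom (V i) (V j) ≤ t) → RatOutside B) ∧
    ((∃ K : ℕ, ManySmallEnd k A K) → RatOutside B) := by
  have h2 : RatOutside B ∨ ∃ (c : ℝ) (m : ℕ) (f : FM k A → Fin m), 0 < c ∧
      ∀ V W, Rig V → Rig W → f V = f W → Big c V W := by
    by_cases h : RatOutside B
    · exact Or.inl h
    · right
      unfold RatOutside at h
      push Not at h
      obtain ⟨c, m, f, hc, hf⟩ := colouring B h
      refine ⟨c, m, f, hc, ?_⟩
      rintro V W ⟨hV, nV⟩ ⟨hW, nW⟩ he t ht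
      obtain ⟨S, rfl⟩ := homTau_iff ht
      have h3 := hf V W hV hW nV nW he S
      unfold dm hom
      rw [add_comm]
      exact h3
  refine ⟨?_, h2, ?_, fun ⟨K, h⟩ => finite_form B K h⟩
  · rintro V W π hV ⟨g, hg, l1⟩ ⟨g', hg', l2⟩ hE ε hε
    choose S hS using fun j => (hV j).1.1
    refine local_pair B V W g g' (fun j => (hV j).1.1) (fun j => (hV j).2.1)
      (fun j => (hV j).1.2) (fun j => (hV j).2.2) hg hg' S π l1 l2 (fun c hc => ?_) ε hε
    refine (hE c hc).mono fun j hj => ?_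
    unfold Big at hj
    push Not at hj
    obtain ⟨t, ht, hlt⟩ := hj
    obtain ⟨S', rfl⟩ := homTau_iff ht
    have e1 := index_eq B (V j) (W j) (hV j).2.1 (g j) (g' j) (hg j) (hg' j) S'
    have e2 := index_eq B (V j) (W j) (hV j).2.1 (g j) (g' j) (hg j) (hg' j) (S j)
    unfold hom dm at hlt
    linarith
  · intro h
    rcases h2 with h2 | ⟨c, m, f, hc, hf⟩
    · exact h2
    · exfalso
      obtain ⟨V, hV, hlt⟩ := h (m + 1)
      obtain ⟨i, j, hij, heq⟩ := Fintype.exists_ne_map_eq_of_card_lt (fun i => f (V i))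
        (by simp)
      have key : ∀ i j : Fin (m + 1), i < j → f (V i) = f (V j) → False := by
        intro i j hij heq
        obtain ⟨t, ht, hle⟩ := hlt i j hij
        have h3 := hf (V i) (V j) (hV i) (hV j) heq t ht
        have h4 : (hom (V i) (V j) : ℝ) ≤ t := by exact_mod_cast hle
        have _ := (hV i).2
        have _ := (hV j).2
        have h5 : 0 < (dm (V i) : ℝ) := by
          exact_mod_cast Module.finrank_pos (R := k) (M := (V i).X)
        have h6 : 0 < (dm (V j) : ℝ) := by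
          exact_mod_cast Module.finrank_pos (R := k) (M := (V j).X)
        have h7 : 0 < c * dm (V i) * dm (V j) := by positivity
        linarith
      rcases lt_or_gt_of_ne hij with h3 | h3
      · exact key i j h3 heq
      · exact key j i h3 heq.symm

end Pool.Agent.Results.MP_7dd0aa_al.HomGrowth
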